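import Mathlib
import Pool.Agent.W179.Erdos

/-!
MP_fe8a5b_an, Q1: there is an unbounded uniformly discrete metric space `M` such that `Lip(M)`
is almost square.

`M` is the disjoint union of finite graphs `H n` with chromatic number and girth larger
than `n`, with a truncated path metric.
-/

namespace Pool.Agent.Results.MP_fe8a5b_an.AlmostSquareLip

open SimpleGraph

/-- `f` is Lipschitz with constant `K`. -/
def LipBound {M : Type} [MetricSpace M] (K : ℝ) (f : M → ℝ) : Prop :=
  ∀ x y, |f x - f y| ≤ K * dist x y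

/-- `f` belongs to `Lip(M)`, for the base point `o`: it is Lipschitz and vanishes at `o`. -/
def MemLip {M : Type} [MetricSpace M] (o : M) (f : M → ℝ) : Prop :=
  f o = 0 ∧ ∃ K : ℝ, 0 ≤ K ∧ LipBound K f

/-- The norm of `Lip(M)`: the best Lipschitz constant. -/
noncomputable def lipNorm {M : Type} [MetricSpace M] (f : M → ℝ) : ℝ :=
  sInf {K : ℝ | 0 ≤ K ∧ LipBound K f}

/-- The space `Lip(M)` (with base point `o`) is almost square. -/
def LipASQ {M : Type} [MetricSpace M] (o : M) : Prop :=
  ∀ (k : ℕ) (f : Fin k → M → ℝ), (∀ i, MemLip o (f i) ∧ lipNorm (f i) = 1) →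
    ∀ ε : ℝ, 0 < ε → ∃ y : M → ℝ, MemLip o y ∧ lipNorm y = 1 ∧
      ∀ i, lipNorm (f i + y) ≤ 1 + ε ∧ lipNorm (f i - y) ≤ 1 + ε

lemma lipNorm_le {M : Type} [MetricSpace M] {f : M → ℝ} {K : ℝ} (hK : 0 ≤ K)
    (h : LipBound K f) : lipNorm f ≤ K :=
  csInf_le ⟨0, fun _ hx => hx.1⟩ ⟨hK, h⟩

lemma lipNorm_bound {M : Type} [MetricSpace M] {f : M → ℝ} {K : ℝ} (hK : 0 ≤ K)
    (h : LipBound K f) (x y : M) : |f x - f y| ≤ lipNorm f * dist x y := by
  by_contra hlt
  push Not at hlt
  have hd : 0 < dist x y := by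
    rcases (dist_nonneg (x := x) (y := y)).eq_or_lt with h0 | h0
    · have := h x y
      rw [← h0] at this hlt
      simp at this hlt
      rw [this] at hlt
      simp at hlt
    · exact h0
  have h1 : sInf {K : ℝ | 0 ≤ K ∧ LipBound K f} < |f x - f y| / dist x y := by
    rw [lt_div_iff₀ hd]
    exact hlt
  have hne : {K : ℝ | 0 ≤ K ∧ LipBound K f}.Nonempty := ⟨K, hK, h⟩
  obtain ⟨K', ⟨_, hK'⟩, hlt'⟩ := exists_lt_of_csInf_lt hne h1
  have := hK' x y
  rw [lt_div_iff₀ hd] at hlt'
  linarith

section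

variable {V : ℕ → Type} (H : ∀ n, SimpleGraph (V n))

/-- The disjoint union of the graphs `H n`. -/
def Gam : SimpleGraph (Σ n, V n) where
  Adj x y := ∃ (n : ℕ) (a b : V n), (H n).Adj a b ∧ x = ⟨n, a⟩ ∧ y = ⟨n, b⟩
  symm := ⟨by
    rintro x y ⟨n, a, b, h, rfl, rfl⟩
    exact ⟨n, b, a, h.symm, rfl, rfl⟩⟩
  loopless := ⟨by
    rintro x ⟨n, a, b, h, h1, h2⟩
    rw [h1] at h2
    have := eq_of_heq (Sigma.mk.inj h2).2
    exact h.ne this⟩

lemma gam_adj {n : ℕ} {a b : V n} : (Gam H).Adj ⟨n, a⟩ ⟨n, b⟩ ↔ (H n).Adj a b := by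
  constructor
  · rintro ⟨m, a', b', h, h1, h2⟩
    obtain ⟨h3, h4⟩ := Sigma.mk.inj h1
    subst h3
    have h5 := (Sigma.mk.inj h2).2
    rw [eq_of_heq h4, eq_of_heq h5]
    exact h
  · intro h
    exact ⟨n, a, b, h, rfl, rfl⟩

lemma index_of_adj {x y : Σ n, V n} (h : (Gam H).Adj x y) : x.1 = y.1 := by
  obtain ⟨n, a, b, _, rfl, rfl⟩ := h
  rfl

lemma index_of_walk {G : SimpleGraph (Σ n, V n)} (hG : G ≤ Gam H) {x y : Σ n, V n}
    (w : G.Walk x y) : x.1 = y.1 := by
  induction w with
  | nil => rfl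
  | cons h p ih => exact (index_of_adj H (hG h)).trans ih

/-- The truncation level of the distance between `x` and `y`. -/
def LL (x y : Σ n, V n) : ℕ := if x.1 = y.1 then x.1 + 1 else (x.1 + 1) + (y.1 + 1)

/-- The distance. -/
noncomputable def DD (x y : Σ n, V n) : ℕ :=
  (min ((Gam H).edist x y) (LL x y : ℕ∞)).toNat

lemma coe_DD (x y : Σ n, V n) : (DD H x y : ℕ∞) = min ((Gam H).edist x y) (LL x y : ℕ∞) := by
  unfold DD
  apply ENat.natCast_toNat
  exact ne_top_of_le_ne_top (ENat.natCast_ne_top _) (min_le_right _ _)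

lemma LL_comm (x y : Σ n, V n) : LL x y = LL y x := by
  unfold LL
  split_ifs with h1 h2 h2
  · rw [h1]
  · exact absurd h1.symm h2
  · exact absurd h2.symm h1
  · ring

lemma LL_pos (x y : Σ n, V n) : 1 ≤ LL x y := by
  unfold LL
  split_ifs <;> omega

lemma le_LL (x y : Σ n, V n) : x.1 + 1 ≤ LL x y := by
  unfold LL
  split_ifs <;> omega

lemma LL_le (x y : Σ n, V n) : LL x y ≤ (x.1 + 1) + (y.1 + 1) := by
  unfold LL
  split_ifs <;> omega

lemma DD_self (x : Σ n, V n) : DD H x x = 0 := by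
  have := coe_DD H x x
  rw [edist_self] at this
  simpa using this

lemma DD_comm (x y : Σ n, V n) : DD H x y = DD H y x := by
  unfold DD
  rw [edist_comm, LL_comm]

lemma eq_of_DD {x y : Σ n, V n} (h : DD H x y = 0) : x = y := by
  have h1 := coe_DD H x y
  rw [h] at h1
  have h2 := LL_pos x y
  rcases min_choice ((Gam H).edist x y) (LL x y : ℕ∞) with h3 | h3
  · rw [h3] at h1
    rw [← edist_eq_zero_iff (G := Gam H)]
    simpa using h1.symm
  · rw [h3] at h1
    have : LL x y = 0 := by exact_mod_cast h1.symm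
    omega

lemma index_of_edist {x y : Σ n, V n} (h : (Gam H).edist x y ≠ ⊤) : x.1 = y.1 := by
  obtain ⟨w, _⟩ := exists_walk_of_edist_ne_top h
  exact index_of_walk H le_rfl w

lemma DD_cases (x y : Σ n, V n) :
    ((DD H x y : ℕ∞) = (Gam H).edist x y ∧ x.1 = y.1) ∨ DD H x y = LL x y := by
  have h1 := coe_DD H x y
  rcases min_choice ((Gam H).edist x y) (LL x y : ℕ∞) with h3 | h3
  · rw [h3] at h1
    left
    refine ⟨h1, ?_⟩
    apply index_of_edist H
    rw [← h1]
    exact ENat.natCast_ne_top _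
  · rw [h3] at h1
    right
    exact_mod_cast h1

lemma DD_le_LL (x y : Σ n, V n) : DD H x y ≤ LL x y := by
  have h1 := coe_DD H x y
  have : (DD H x y : ℕ∞) ≤ LL x y := by
    rw [h1]
    exact min_le_right _ _
  exact_mod_cast this

lemma DD_le_edist (x y : Σ n, V n) : (DD H x y : ℕ∞) ≤ (Gam H).edist x y := by
  rw [coe_DD H x y]
  exact min_le_left _ _

lemma DD_tri (x y z : Σ n, V n) : DD H x z ≤ DD H x y + DD H y z := by
  rcases DD_cases H x y with ⟨h1, h1'⟩ | h1
  · rcases DD_cases H y z with ⟨h2, h2'⟩ | h2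
    · have h3 := (DD_le_edist H x z).trans (SimpleGraph.edist_triangle (v := y))
      rw [← h1, ← h2] at h3
      exact_mod_cast h3
    · have h3 := DD_le_LL H x z
      have h4 : LL x z = LL y z := by
        unfold LL
        rw [h1']
      omega
  · rcases DD_cases H y z with ⟨h2, h2'⟩ | h2
    · have h3 := DD_le_LL H x z
      have h4 : LL x z = LL x y := by
        unfold LL
        rw [h2']
      omega
    · have h3 := DD_le_LL H x z
      have h4 := LL_le x z
      have h5 := le_LL x y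
      have h6 := le_LL z y
      rw [LL_comm] at h6
      omega

/-- The metric space structure. -/
noncomputable abbrev met : MetricSpace (Σ n, V n) where
  dist x y := (DD H x y : ℝ)
  dist_self x := by rw [DD_self]; simp
  dist_comm x y := by rw [DD_comm]
  dist_triangle x y z := by exact_mod_cast DD_tri H x y z
  eq_of_dist_eq_zero := by
    intro x y h
    exact eq_of_DD H (by exact_mod_cast h)

lemma walk_lip {G : SimpleGraph (Σ n, V n)} (F : (Σ n, V n) → ℝ) (c : ℝ)
    (h : ∀ x y, G.Adj x y → |F x - F y| ≤ c) {x y : Σ n, V n} (w : G.Walk x y) :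
    |F x - F y| ≤ c * w.length := by
  induction w with
  | nil => simp
  | @cons u v z huv p ih =>
    rw [Walk.length_cons]
    push_cast
    calc |F u - F z| ≤ |F u - F v| + |F v - F z| := abs_sub_le _ _ _
      _ ≤ c + c * p.length := add_le_add (h _ _ huv) ih
      _ = c * (p.length + 1) := by ring

lemma lip_of (F : (Σ n, V n) → ℝ) (c : ℝ)
    (h : ∀ x y, (Gam H).Adj x y → |F x - F y| ≤ c)
    (h' : ∀ x y, |F x - F y| ≤ c * LL x y) (x y : Σ n, V n) :
    |F x - F y| ≤ c * DD H x y := by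
  rcases DD_cases H x y with ⟨h1, h1'⟩ | h1
  · obtain ⟨w, hw⟩ := exists_walk_of_edist_eq_coe h1.symm
    rw [← hw]
    exact walk_lip F c h w
  · rw [h1]
    exact h' x y

open Pool.Agent.W179.Erdos in
lemma girth_edist {n : ℕ} {a b : V n} (hab : (H n).Adj a b)
    (hg : ∀ l f, FCyc (H n) l f → n < l) :
    (n : ℕ∞) ≤ ((Gam H).deleteEdges {s(⟨n, a⟩, ⟨n, b⟩)}).edist ⟨n, a⟩ ⟨n, b⟩ := by
  classical
  by_contra hlt
  push Not at hlt
  have hle : (Gam H).deleteEdges {s((⟨n, a⟩ : Σ n, V n), ⟨n, b⟩)} ≤ Gam H :=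
    deleteEdges_le _
  obtain ⟨w, hw⟩ := exists_walk_of_edist_ne_top (ne_top_of_lt hlt)
  rw [← hw] at hlt
  have hlt' : w.length < n := by exact_mod_cast hlt
  obtain ⟨p, hp, hpl⟩ : ∃ p : ((Gam H).deleteEdges {s((⟨n, a⟩ : Σ n, V n), ⟨n, b⟩)}).Walk
      ⟨n, a⟩ ⟨n, b⟩, p.IsPath ∧ p.length ≤ w.length :=
    ⟨w.bypass, w.bypass_isPath, w.length_bypass_le_length⟩
  have hidx : ∀ i, ∃ c : V n, p.getVert i = ⟨n, c⟩ := by
    intro i
    have h1 := index_of_walk H hle (p.take i)
    generalize p.getVert i = z at h1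
    obtain ⟨m, c⟩ := z
    subst h1
    exact ⟨c, rfl⟩
  choose g hgv using hidx
  have h0 : g 0 = a := by
    have h1 := hgv 0
    rw [Walk.getVert_zero] at h1
    exact (eq_of_heq (Sigma.mk.inj h1).2).symm
  have hl : g p.length = b := by
    have h1 := hgv p.length
    rw [Walk.getVert_length] at h1
    exact (eq_of_heq (Sigma.mk.inj h1).2).symm
  have hne : a ≠ b := hab.ne
  have hlen0 : p.length ≠ 0 := by
    intro h
    rw [h, h0] at hl
    exact hne hl
  have hadj : ∀ i, i < p.length → (H n).Adj (g i) (g (i + 1)) := by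
    intro i hi
    have h1 := hle (p.adj_getVert_succ hi)
    rw [hgv i, hgv (i + 1), gam_adj] at h1
    exact h1
  have hlen1 : p.length ≠ 1 := by
    intro h
    have h1 := p.adj_getVert_succ (i := 0) (by omega)
    rw [Walk.getVert_zero, show (0 + 1) = p.length by omega, Walk.getVert_length,
      deleteEdges_adj] at h1
    exact h1.2 rfl
  have hcyc : FCyc (H n) (p.length + 1) g := by
    refine ⟨by omega, ?_, ?_, ?_⟩
    · intro i hi j hj hij
      have h1 : p.getVert i = p.getVert j := by rw [hgv i, hgv j, hij]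
      exact hp.getVert_injOn (by simp; omega) (by simp; omega) h1
    · intro i hi
      exact hadj i (by omega)
    · rw [Nat.add_sub_cancel, hl, h0]
      exact hab.symm
  have := hg _ _ hcyc
  omega

/-- The truncated distance to `u` after deleting the edge `uv`. -/
noncomputable def qq (n : ℕ) (u v x : Σ n, V n) : ℕ :=
  (min (((Gam H).deleteEdges {s(u, v)}).edist u x) (n : ℕ∞)).toNat

lemma coe_qq (n : ℕ) (u v x : Σ n, V n) :
    (qq H n u v x : ℕ∞) = min (((Gam H).deleteEdges {s(u, v)}).edist u x) (n : ℕ∞) := by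
  unfold qq
  apply ENat.natCast_toNat
  exact ne_top_of_le_ne_top (ENat.natCast_ne_top _) (min_le_right _ _)

lemma qq_le (n : ℕ) (u v x : Σ n, V n) : qq H n u v x ≤ n := by
  have h := coe_qq H n u v x
  have : (qq H n u v x : ℕ∞) ≤ n := by
    rw [h]
    exact min_le_right _ _
  exact_mod_cast this

lemma qq_self (n : ℕ) (u v : Σ n, V n) : qq H n u v u = 0 := by
  have h := coe_qq H n u v u
  rw [edist_self] at h
  simpa using h

lemma qq_far (n : ℕ) (u v x : Σ n, V n) (h : x.1 ≠ u.1) : qq H n u v x = n := by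
  have h1 := coe_qq H n u v x
  have h2 : ((Gam H).deleteEdges {s(u, v)}).edist u x = ⊤ := by
    by_contra h3
    obtain ⟨w, _⟩ := exists_walk_of_edist_ne_top h3
    exact h (index_of_walk H (deleteEdges_le _) w).symm
  rw [h2] at h1
  simpa using h1

lemma qq_adj (n : ℕ) (u v x y : Σ n, V n)
    (h : ((Gam H).deleteEdges {s(u, v)}).Adj x y) : qq H n u v x ≤ qq H n u v y + 1 := by
  have h1 := coe_qq H n u v x
  have h2 := coe_qq H n u v y
  have h3 : ((Gam H).deleteEdges {s(u, v)}).edist u x ≤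
      ((Gam H).deleteEdges {s(u, v)}).edist u y + 1 := by
    have h4 := SimpleGraph.edist_triangle (G := (Gam H).deleteEdges {s(u, v)})
      (u := u) (v := y) (w := x)
    rwa [edist_eq_one_iff_adj.2 h.symm] at h4
  have h5 : (qq H n u v x : ℕ∞) ≤ (qq H n u v y : ℕ∞) + 1 := by
    rw [h1, h2, ← min_add_add_right]
    apply min_le_min h3
    exact le_self_add
  exact_mod_cast h5

/-- The function `h`. -/
noncomputable def hh (n : ℕ) (u v x : Σ n, V n) : ℝ := (qq H n u v x : ℝ) / n

lemma hh_nonneg (n : ℕ) (u v x : Σ n, V n) : 0 ≤ hh H n u v x := by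
  unfold hh
  positivity

lemma hh_le_one (n : ℕ) (u v x : Σ n, V n) : hh H n u v x ≤ 1 := by
  unfold hh
  apply div_le_one_of_le₀ _ (Nat.cast_nonneg _)
  exact_mod_cast qq_le H n u v x

lemma hh_diff (n : ℕ) (u v x y : Σ n, V n) : |hh H n u v x - hh H n u v y| ≤ 1 := by
  have h1 := hh_nonneg H n u v x
  have h2 := hh_nonneg H n u v y
  have h3 := hh_le_one H n u v x
  have h4 := hh_le_one H n u v y
  rw [abs_le]
  constructor <;> linarith

lemma hh_adj (n : ℕ) (u v x y : Σ n, V n)
    (h : ((Gam H).deleteEdges {s(u, v)}).Adj x y) :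
    |hh H n u v x - hh H n u v y| ≤ 1 / n := by
  have h1 : (qq H n u v x : ℝ) ≤ qq H n u v y + 1 := by exact_mod_cast qq_adj H n u v x y h
  have h2 : (qq H n u v y : ℝ) ≤ qq H n u v x + 1 := by
    exact_mod_cast qq_adj H n u v y x h.symm
  unfold hh
  rw [← sub_div, abs_div, abs_of_nonneg (Nat.cast_nonneg n : (0 : ℝ) ≤ n)]
  apply div_le_div_of_nonneg_right _ (Nat.cast_nonneg n)
  rw [abs_le]
  constructor <;> linarith

end

/-- In a graph that is not `n`-colourable there is an edge on which finitely many given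
functions that vary by at most one along edges are almost constant. -/
lemma mono_edge {W : Type} (G : SimpleGraph W) {k : ℕ} (f : Fin k → W → ℝ)
    (hf : ∀ i a b, G.Adj a b → |f i a - f i b| ≤ 1) {δ : ℝ} (hδ : 0 < δ) {m : ℕ} [NeZero m]
    (hm : 1 / δ + 1 ≤ m) {n : ℕ} (hn : m ^ k ≤ n) (hG : ¬ G.Colorable n) :
    ∃ a b, G.Adj a b ∧ ∀ i, |f i a - f i b| ≤ δ := by
  classical
  by_contra hcon
  push Not at hcon
  apply hG
  have hcol : G.Colorable (Fintype.card (Fin k → ZMod m)) := by
    refine (Coloring.mk (fun a i => ((⌊f i a / δ⌋ : ℤ) : ZMod m)) ?_ :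
      G.Coloring (Fin k → ZMod m)).colorable
    intro a b hab heq
    obtain ⟨i, hi⟩ := hcon a b hab
    have h1 := congrFun heq i
    have h2 := hf i a b hab
    rw [ZMod.intCast_eq_intCast_iff_dvd_sub] at h1
    have h3 : |f i b / δ - f i a / δ| ≤ 1 / δ := by
      rw [← sub_div, abs_div, abs_of_pos hδ, abs_sub_comm]
      exact div_le_div_of_nonneg_right h2 hδ.le
    have h4 : |((⌊f i b / δ⌋ - ⌊f i a / δ⌋ : ℤ) : ℝ)| < m := by
      have e1 := Int.floor_le (f i a / δ)
      have e2 := Int.lt_floor_add_one (f i a / δ)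
      have e3 := Int.floor_le (f i b / δ)
      have e4 := Int.lt_floor_add_one (f i b / δ)
      push_cast
      rw [abs_le] at h3
      rw [abs_lt]
      constructor <;> linarith [h3.1, h3.2]
    have h5 : |⌊f i b / δ⌋ - ⌊f i a / δ⌋| < (m : ℤ) := by exact_mod_cast h4
    have h6 : ⌊f i b / δ⌋ - ⌊f i a / δ⌋ = 0 := Int.eq_zero_of_abs_lt_dvd h1 h5
    have h7 : |f i a - f i b| < δ := by
      have e1 := Int.floor_le (f i a / δ)
      have e2 := Int.lt_floor_add_one (f i a / δ)
      have e3 := Int.floor_le (f i b / δ)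
      have e4 := Int.lt_floor_add_one (f i b / δ)
      have h8 : ⌊f i b / δ⌋ = ⌊f i a / δ⌋ := by linarith
      rw [h8] at e3 e4
      have h9 : |f i a / δ - f i b / δ| < 1 := by
        rw [abs_lt]
        constructor <;> linarith
      rwa [← sub_div, abs_div, abs_of_pos hδ, div_lt_one hδ] at h9
    linarith
  apply hcol.mono
  simpa [ZMod.card] using hn

open Pool.Agent.W179.Erdos in
/-- Main construction. -/
theorem main (V : ℕ → Type) (H : ∀ n, SimpleGraph (V n)) (hcol : ∀ n, ¬ (H n).Colorable n)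
    (hg : ∀ n l f, FCyc (H n) l f → n < l) (o : Σ n, V n) :
    @LipASQ (Σ n, V n) (met H) o := by
  letI := met H
  have hdist : ∀ x y : Σ n, V n, dist x y = (DD H x y : ℝ) := fun x y => rfl
  intro k f hf ε hε
  -- parameters
  obtain ⟨m, hm⟩ := exists_nat_ge (1 / ε + 1)
  have hm0 : 0 < m := by
    have : (0 : ℝ) < m := lt_of_lt_of_le (by positivity) hm
    exact_mod_cast this
  haveI : NeZero m := ⟨hm0.ne'⟩
  let n : ℕ := m ^ k + m
  have hn1 : m ^ k ≤ n := Nat.le_add_right _ _
  have hn2 : 1 / ε + 1 ≤ n := by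
    refine hm.trans ?_
    exact_mod_cast Nat.le_add_left m (m ^ k)
  have hn0 : (0 : ℝ) < n := lt_of_lt_of_le (by positivity) hn2
  have hnε : 1 ≤ ε * n := by
    have h1 : 1 / ε ≤ n := by linarith
    rw [div_le_iff₀ hε] at h1
    linarith
  have hf1 : ∀ i x y, |f i x - f i y| ≤ (DD H x y : ℝ) := by
    intro i x y
    obtain ⟨⟨_, K, hK, hL⟩, h1⟩ := hf i
    have := lipNorm_bound hK hL x y
    rw [h1, one_mul] at this
    exact this
  have hDadj : ∀ x y, (Gam H).Adj x y → (DD H x y : ℝ) ≤ 1 := by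
    intro x y hxy
    have h1 := DD_le_edist H x y
    rw [edist_eq_one_iff_adj.2 hxy] at h1
    exact_mod_cast h1
  have hfadj : ∀ i x y, (Gam H).Adj x y → |f i x - f i y| ≤ 1 :=
    fun i x y hxy => (hf1 i x y).trans (hDadj x y hxy)
  -- the edge
  obtain ⟨a, b, hab, hflat⟩ := mono_edge (H n) (fun i (c : V n) => f i ⟨n, c⟩)
    (fun i c d hcd => hfadj i _ _ ((gam_adj H).2 hcd)) hε hm hn1 (hcol n)
  have hgir := girth_edist H hab (hg n)
  set u : Σ n, V n := ⟨n, a⟩ with hu
  set v : Σ n, V n := ⟨n, b⟩ with hv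
  have huv : (Gam H).Adj u v := (gam_adj H).2 hab
  have hqv : hh H n u v v = 1 := by
    unfold hh
    have h1 := coe_qq H n u v v
    rw [min_eq_right hgir] at h1
    have h2 : qq H n u v v = n := by exact_mod_cast h1
    rw [h2]
    exact div_self hn0.ne'
  have hqu : hh H n u v u = 0 := by
    unfold hh
    rw [qq_self]
    simp
  have hbad : ∀ x y, (Gam H).Adj x y → ¬ ((Gam H).deleteEdges {s(u, v)}).Adj x y →
      (x = u ∧ y = v) ∨ (x = v ∧ y = u) := by
    intro x y hxy h
    rw [deleteEdges_adj] at h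
    push Not at h
    have := h hxy
    rw [Set.mem_singleton_iff, Sym2.eq_iff] at this
    exact this
  let y : (Σ n, V n) → ℝ := fun x => hh H n u v x - hh H n u v o
  have hydiff : ∀ x z, y x - y z = hh H n u v x - hh H n u v z := by
    intro x z
    simp only [y]
    ring
  have hyL : LipBound 1 y := by
    intro x z
    rw [hydiff, hdist]
    apply lip_of H (hh H n u v) 1
    · intro x z _
      exact hh_diff H n u v x z
    · intro x z
      have h1 : (1 : ℝ) ≤ LL x z := by exact_mod_cast LL_pos x z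
      have := hh_diff H n u v x z
      linarith
  have hy0 : y o = 0 := by simp [y]
  -- bound for `f i + s y`, `s = ± 1`
  have hkey : ∀ i (s : ℝ), |s| = 1 → LipBound (1 + ε) (f i + s • y) := by
    intro i s hs x z
    have e1 : (f i + s • y) x - (f i + s • y) z =
        (f i x + s * hh H n u v x) - (f i z + s * hh H n u v z) := by
      simp only [Pi.add_apply, Pi.smul_apply, smul_eq_mul, y]
      ring
    rw [e1, hdist]
    have hstep : ∀ p q, |(f i p + s * hh H n u v p) - (f i q + s * hh H n u v q)| ≤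
        |f i p - f i q| + |hh H n u v p - hh H n u v q| := by
      intro p q
      have : (f i p + s * hh H n u v p) - (f i q + s * hh H n u v q) =
          (f i p - f i q) + s * (hh H n u v p - hh H n u v q) := by ring
      rw [this]
      refine (abs_add_le _ _).trans ?_
      rw [abs_mul, hs, one_mul]
    apply lip_of H (fun p => f i p + s * hh H n u v p) (1 + ε)
    · intro p q hpq
      refine (hstep p q).trans ?_
      by_cases h : ((Gam H).deleteEdges {s(u, v)}).Adj p q
      · have h1 := hfadj i p q hpq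
        have h2 := hh_adj H n u v p q h
        have h3 : 1 / (n : ℝ) ≤ ε := by
          rw [div_le_iff₀ hn0]
          exact hnε
        linarith
      · have h2 := hh_diff H n u v p q
        have h1 : |f i p - f i q| ≤ ε := by
          rcases hbad p q hpq h with ⟨rfl, rfl⟩ | ⟨rfl, rfl⟩
          · exact hflat i
          · rw [abs_sub_comm]
            exact hflat i
        linarith
    · intro p q
      refine (hstep p q).trans ?_
      have h1 : |f i p - f i q| ≤ LL p q :=
        (hf1 i p q).trans (by exact_mod_cast DD_le_LL H p q)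
      have hLL : (1 : ℝ) ≤ LL p q := by exact_mod_cast LL_pos p q
      have h2 : |hh H n u v p - hh H n u v q| ≤ ε * LL p q := by
        by_cases hp : p.1 = n
        · have h3 : (n : ℝ) ≤ LL p q := by
            have := le_LL p q
            rw [hp] at this
            exact_mod_cast (by omega : n ≤ LL p q)
          have h4 := mul_le_mul_of_nonneg_left h3 hε.le
          have := hh_diff H n u v p q
          linarith
        · by_cases hq : q.1 = n
          · have h3 : (n : ℝ) ≤ LL p q := by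
              have := le_LL q p
              rw [hq, LL_comm] at this
              exact_mod_cast (by omega : n ≤ LL p q)
            have h4 := mul_le_mul_of_nonneg_left h3 hε.le
            have := hh_diff H n u v p q
            linarith
          · have h3 : hh H n u v p = hh H n u v q := by
              unfold hh
              rw [qq_far H n u v p hp, qq_far H n u v q hq]
            rw [h3, sub_self, abs_zero]
            positivity
      have : (1 + ε) * (LL p q : ℝ) = LL p q + ε * LL p q := by ring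
      linarith
  refine ⟨y, ⟨hy0, 1, zero_le_one, hyL⟩, ?_, ?_⟩
  · apply le_antisymm (lipNorm_le zero_le_one hyL)
    have h1 := lipNorm_bound zero_le_one hyL v u
    rw [hydiff, hqv, hqu, hdist, sub_zero, abs_one] at h1
    have h2 := hDadj v u huv.symm
    have h3 : DD H v u ≠ 0 := fun h => huv.ne (eq_of_DD H h).symm
    have h4 : (1 : ℝ) ≤ DD H v u := by exact_mod_cast Nat.one_le_iff_ne_zero.2 h3
    have h5 : (DD H v u : ℝ) = 1 := le_antisymm h2 h4
    rw [h5, mul_one] at h1
    exact h1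
  · intro i
    constructor
    · apply lipNorm_le (by positivity)
      have := hkey i 1 (by simp)
      rwa [one_smul] at this
    · apply lipNorm_le (by positivity)
      have := hkey i (-1) (by simp)
      rwa [neg_one_smul, ← sub_eq_add_neg] at this

/-- **Answer to Q1: yes.** There is an unbounded uniformly discrete metric space `M` such that
`Lip(M)` is almost square (for every choice of the base point). -/
theorem result :
    ∃ (M : Type) (_ : MetricSpace M),
      (¬ Bornology.IsBounded (Set.univ : Set M)) ∧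
      (∃ r : ℝ, 0 < r ∧ ∀ x y : M, x ≠ y → r ≤ dist x y) ∧
      ∀ o : M, LipASQ o := by
  classical
  choose V hV H hcol hg using fun n : ℕ => Pool.Agent.W179.Erdos.erdos n n
  refine ⟨Σ n, V n, met H, ?_, ⟨1, one_pos, ?_⟩, fun o => main V H hcol hg o⟩
  · intro hb
    letI := met H
    obtain ⟨C, hC⟩ := Metric.isBounded_iff.1 hb
    have hne : ∀ n, Nonempty (V n) := by
      intro n
      by_contra h
      rw [not_nonempty_iff] at h
      exact hcol n ⟨Coloring.mk (fun a => h.elim a) (fun {a} => h.elim a)⟩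
    obtain ⟨N, hN⟩ := exists_nat_gt C
    obtain ⟨a⟩ := hne 0
    obtain ⟨b⟩ := hne (N + 1)
    have h1 := hC (Set.mem_univ (⟨0, a⟩ : Σ n, V n)) (Set.mem_univ (⟨N + 1, b⟩ : Σ n, V n))
    have h2 : DD H (⟨0, a⟩ : Σ n, V n) ⟨N + 1, b⟩ = LL (⟨0, a⟩ : Σ n, V n) ⟨N + 1, b⟩ := by
      rcases DD_cases H (⟨0, a⟩ : Σ n, V n) ⟨N + 1, b⟩ with ⟨_, h⟩ | h
      · exact absurd h (by simp)
      · exact h
    have h3 : N < LL (⟨0, a⟩ : Σ n, V n) ⟨N + 1, b⟩ := by
      have := le_LL (⟨N + 1, b⟩ : Σ n, V n) ⟨0, a⟩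
      rw [LL_comm] at this
      simp only at this
      omega
    have h4 : ((DD H (⟨0, a⟩ : Σ n, V n) ⟨N + 1, b⟩ : ℕ) : ℝ) ≤ C := h1
    rw [h2] at h4
    have h5 : (N : ℝ) < LL (⟨0, a⟩ : Σ n, V n) ⟨N + 1, b⟩ := by exact_mod_cast h3
    linarith
  · intro x y hxy
    have h1 : DD H x y ≠ 0 := fun h => hxy (eq_of_DD H h)
    have h2 : 1 ≤ DD H x y := Nat.one_le_iff_ne_zero.2 h1
    change (1 : ℝ) ≤ (DD H x y : ℝ)
    exact_mod_cast h2

end Pool.Agent.Results.MP_fe8a5b_an.AlmostSquareLip
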